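import Pool.Agent.Helper122_SFP.Final2

/-!
# All rationals from 5/2 on as strong fractional choice and paint numbers

For every rational `r ≥ 5/2` there is one finite graph whose strong fractional choice number and
strong fractional paint number are both equal to `r`.
-/

set_option autoImplicit false

namespace Pool.Agent.Results.MP_242484_co.AllRationalsFromFiveHalves

/-- Every rational `r ≥ 5/2` is the strong fractional choice number and the strong fractional paint
number of one finite graph. -/
theorem result : ∀ r : ℚ, (5 : ℚ) / 2 ≤ r →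
    ∃ n : ℕ, ∃ G : SimpleGraph (Fin n),
      sInf {s : ℝ | ∀ a b : ℕ, 0 < b → s ≤ (a : ℝ) / (b : ℝ) →
        ∀ L : Fin n → Finset ℕ, (∀ v, (L v).card = a) →
          ∃ C : Fin n → Finset ℕ, (∀ v, C v ⊆ L v ∧ (C v).card = b) ∧
            ∀ u v, G.Adj u v → Disjoint (C u) (C v)} = (r : ℝ) ∧
      sInf {s : ℝ | ∀ a b : ℕ, 0 < b → s ≤ (a : ℝ) / (b : ℝ) →
        ∀ W : (Fin n → ℕ) → (Fin n → ℕ) → Prop,
          (∀ g h : Fin n → ℕ, (∀ v, h v = 0) → W g h) →
          (∀ g h : Fin n → ℕ, (∀ v, h v ≤ g v) →
            (∀ M : Finset (Fin n), M.Nonempty → (∀ v ∈ M, 0 < h v) →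
              ∃ I ⊆ M, G.IsIndepSet (↑I : Set (Fin n)) ∧
                W (fun v => if v ∈ M then g v - 1 else g v)
                  (fun v => if v ∈ I then h v - 1 else h v)) →
            W g h) →
          W (fun _ => a) (fun _ => b)} = (r : ℝ) := by
  intro r hr
  obtain ⟨p, q, hp, hq, hre, hex⟩ := Helper122.SFP.exists_full_rat r hr
  obtain ⟨n, G, hG⟩ := Helper122.SFP.exists_full_fin hex
  have h := Helper122.SFP.strong_numbers hp hq hG
  have hre' : (p : ℝ) / (q : ℝ) = (r : ℝ) := by
    rw [hre]
    push_cast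
    rfl
  rw [hre'] at h
  exact ⟨n, G, h.1, h.2⟩

end Pool.Agent.Results.MP_242484_co.AllRationalsFromFiveHalves
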